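import Pool.Agent.SGE.Stmts

/-! Row OUT of squad SGE. -/

set_option autoImplicit false

namespace Pool.Agent.SGE.H75

open Pool.Agent.SGE

theorem o_swap (p q r : ℝ × ℝ) : o q p r = -o p q r := by
  simp only [o]; ring

theorem o_left (p q : ℝ × ℝ) : o p q p = 0 := by simp only [o]; ring

theorem o_right (p q : ℝ × ℝ) : o p q q = 0 := by simp only [o]; ring

theorem bound {n : ℕ} (f : Fin n → ℝ × ℝ) :
    ∃ R : ℝ, 0 ≤ R ∧ ∀ v, |(f v).1| ≤ R ∧ |(f v).2| ≤ R := by
  refine ⟨∑ v, (|(f v).1| + |(f v).2|), Finset.sum_nonneg fun v _ => by positivity, fun v => ?_⟩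
  have h := Finset.single_le_sum (f := fun v => |(f v).1| + |(f v).2|)
    (fun v _ => by positivity) (Finset.mem_univ v)
  have h1 := abs_nonneg (f v).1
  have h2 := abs_nonneg (f v).2
  constructor <;> linarith

/-- the drawing with three more points -/
def ext3 {n : ℕ} (f : Fin n → ℝ × ℝ) (M : ℝ) : Fin n ⊕ Fin 3 → ℝ × ℝ :=
  Sum.elim f ![(-M, -M), (M, -M), (0, M)]

theorem out (hseg : SegStmt) (hper : PerStmt) : OutStmt := by
  intro n G hG
  obtain ⟨f, hf⟩ := hG
  obtain ⟨R, hR0, hR⟩ := bound f
  set M : ℝ := 3 * R + 1 with hM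
  let a : Fin n ⊕ Fin 3 := Sum.inr 0
  let b : Fin n ⊕ Fin 3 := Sum.inr 1
  let c : Fin n ⊕ Fin 3 := Sum.inr 2
  have fa : ext3 f M a = (-M, -M) := rfl
  have fb : ext3 f M b = (M, -M) := rfl
  have fc : ext3 f M c = (0, M) := rfl
  have fl : ∀ v, ext3 f M (Sum.inl v) = f v := fun _ => rfl
  have hcase : ∀ v : Fin n ⊕ Fin 3, (∃ v', v = Sum.inl v') ∨ v = a ∨ v = b ∨ v = c := by
    intro v
    rcases v with v | v
    · exact Or.inl ⟨v, rfl⟩
    · right
      fin_cases v
      · exact Or.inl rfl
      · exact Or.inr (Or.inl rfl)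
      · exact Or.inr (Or.inr rfl)
  have hb1 : ∀ v, -R ≤ (f v).1 ∧ (f v).1 ≤ R ∧ -R ≤ (f v).2 ∧ (f v).2 ≤ R := by
    intro v
    have h1 := abs_le.1 (hR v).1
    have h2 := abs_le.1 (hR v).2
    exact ⟨h1.1, h1.2, h2.1, h2.2⟩
  obtain ⟨g, g1, g2, g3, g4, g5⟩ := hper (ext3 f M)
    (fun u v w z => ∃ u' v' w' z', u = Sum.inl u' ∧ v = Sum.inl v' ∧ w = Sum.inl w' ∧
      z = Sum.inl z' ∧ G.Adj u' v' ∧ G.Adj w' z' ∧ u' ≠ w' ∧ u' ≠ z' ∧ v' ≠ w' ∧ v' ≠ z')
    (fun u v w => (u = a ∧ v = b ∧ w ≠ a ∧ w ≠ b) ∨ (u = c ∧ v = a ∧ w ≠ a ∧ w ≠ c) ∨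
      (u = b ∧ v = c ∧ w ≠ c ∧ w ≠ b))
    (fun u v => (u = a ∧ v ≠ a) ∨ (v = b ∧ u ≠ b)) (fun u v => v = c ∧ u ≠ c)
    (by
      rintro _ _ _ _ ⟨u, v, w, z, rfl, rfl, rfl, rfl, huv, hwz, h1, h2, h3, h4⟩
      rw [fl, fl, fl, fl, Set.disjoint_left]
      intro x hx hx'
      have hne : s(u, v) ≠ s(w, z) := by
        intro h
        rw [Sym2.eq_iff] at h
        rcases h with h | h
        · exact h1 h.1
        · exact h2 h.1
      have := hf.cross u v w z huv hwz hne ⟨hx, hx'⟩
      obtain ⟨k1, k2⟩ := this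
      simp only [Set.mem_insert_iff, Set.mem_singleton_iff] at k1 k2
      rcases k1 with k1 | k1 <;> rcases k2 with k2 | k2 <;> rw [k1] at k2 <;>
        have k3 := hf.inj k2
      · exact h1 k3
      · exact h2 k3
      · exact h3 k3
      · exact h4 k3)
    (by
      rintro u v w (⟨rfl, rfl, h1, h2⟩ | ⟨rfl, rfl, h1, h2⟩ | ⟨rfl, rfl, h1, h2⟩)
      · rw [fa, fb]
        rcases hcase w with ⟨w', rfl⟩ | rfl | rfl | rfl
        · rw [fl]
          have := hb1 w'
          simp only [o]
          nlinarith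
        · exact absurd rfl h1
        · exact absurd rfl h2
        · rw [fc]
          simp only [o]
          nlinarith
      · rw [fa, fc]
        rcases hcase w with ⟨w', rfl⟩ | rfl | rfl | rfl
        · rw [fl]
          obtain ⟨k1, k2, k3, k4⟩ := hb1 w'
          have e : o (0, M) (-M, -M) (f w') = M * (M + 2 * (f w').1 - (f w').2) := by
            simp only [o]; ring
          rw [e]
          have : 0 < M := by linarith
          refine mul_pos this ?_
          linarith
        · exact absurd rfl h1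
        · rw [fb]
          have e : o (0, M) (-M, -M) (M, -M) = 4 * (M * M) := by
            simp only [o]; ring
          rw [e]
          have : 0 < M := by linarith
          positivity
        · exact absurd rfl h2
      · rw [fb, fc]
        rcases hcase w with ⟨w', rfl⟩ | rfl | rfl | rfl
        · rw [fl]
          obtain ⟨k1, k2, k3, k4⟩ := hb1 w'
          have e : o (M, -M) (0, M) (f w') = M * (M - 2 * (f w').1 - (f w').2) := by
            simp only [o]; ring
          rw [e]
          have : 0 < M := by linarith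
          refine mul_pos this ?_
          linarith
        · rw [fa]
          have e : o (M, -M) (0, M) (-M, -M) = 4 * (M * M) := by
            simp only [o]; ring
          rw [e]
          have : 0 < M := by linarith
          positivity
        · exact absurd rfl h2
        · exact absurd rfl h1)
    (by
      rintro u v (⟨rfl, h⟩ | ⟨rfl, h⟩)
      · rw [fa]
        rcases hcase v with ⟨v', rfl⟩ | rfl | rfl | rfl
        · rw [fl]
          obtain ⟨k1, k2, k3, k4⟩ := hb1 v'
          change -M < (f v').1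
          linarith
        · exact absurd rfl h
        · rw [fb]; change -M < M; linarith
        · rw [fc]; change -M < 0; linarith
      · rw [fb]
        rcases hcase u with ⟨v', rfl⟩ | rfl | rfl | rfl
        · rw [fl]
          obtain ⟨k1, k2, k3, k4⟩ := hb1 v'
          change (f v').1 < M
          linarith
        · rw [fa]; change -M < M; linarith
        · exact absurd rfl h
        · rw [fc]; change 0 < M; linarith)
    (by
      rintro u v ⟨rfl, h⟩
      rw [fc]
      rcases hcase u with ⟨v', rfl⟩ | rfl | rfl | rfl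
      · rw [fl]
        obtain ⟨k1, k2, k3, k4⟩ := hb1 v'
        change (f v').2 < M
        linarith
      · rw [fa]; change -M < M; linarith
      · rw [fb]; change -M < M; linarith
      · exact absurd rfl h)
  refine ⟨g, g1, ?_, ?_⟩
  · refine ⟨by simp, by simp, ?_, ?_, ?_, ?_, ?_, ?_⟩
    · intro v hv; exact g4 a v (Or.inl ⟨rfl, hv⟩)
    · intro v hv; exact g4 v b (Or.inr ⟨rfl, hv⟩)
    · intro v hv; exact g5 v c ⟨rfl, hv⟩
    · intro v h1 h2; exact g3 a b v (Or.inl ⟨rfl, rfl, h1, h2⟩)
    · intro v h1 h2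
      have := g3 c a v (Or.inr (Or.inl ⟨rfl, rfl, h1, h2⟩))
      rw [o_swap] at this
      change o (g a) (g c) (g v) < 0
      linarith
    · intro v h1 h2
      have := g3 b c v (Or.inr (Or.inr ⟨rfl, rfl, h1, h2⟩))
      rw [o_swap] at this
      change o (g c) (g b) (g v) < 0
      linarith
  · intro u v w z huv hwz hX
    by_cases h1 : u = w
    · subst h1
      have := hX.1
      rw [o_left, zero_mul] at this
      exact lt_irrefl _ this
    by_cases h2 : u = z
    · subst h2
      have := hX.1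
      rw [o_left, mul_zero] at this
      exact lt_irrefl _ this
    by_cases h3 : v = w
    · subst h3
      have := hX.1
      rw [o_right, zero_mul] at this
      exact lt_irrefl _ this
    by_cases h4 : v = z
    · subst h4
      have := hX.1
      rw [o_right, mul_zero] at this
      exact lt_irrefl _ this
    obtain ⟨x, hx1, hx2⟩ := (hseg _ _ _ _).1 hX
    exact Set.disjoint_left.1 (g2 _ _ _ _ ⟨u, v, w, z, rfl, rfl, rfl, rfl, huv, hwz, h1, h2, h3,
      h4⟩) hx1 hx2

end Pool.Agent.SGE.H75
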