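import Pool.Agent.SGE.Stmts

/-! Row SWE of squad SGE. -/

set_option autoImplicit false

namespace Pool.Agent.SGE.H75

open Pool.Agent.SGE

theorem fan_adj {V : Type} {E : V → V → Prop} {F : V → V → V → Prop} {x w y : V}
    (h : Fan E F x w y) : E w x ∧ E w y := by
  obtain ⟨l, h1, h2, _, _, h5, _⟩ := h
  exact ⟨(h5 x).2 (List.mem_of_mem_head? h1), (h5 y).2 (List.mem_of_mem_getLast? h2)⟩

theorem final {V : Type} [Fintype V] {f : V → ℝ × ℝ} {T : V → V → Prop} {a b c : V}
    (hT : Tr f T) (hO : OT f a b c) {E : V → V → Prop} {F : V → V → V → Prop}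
    (hS : Sw f T a b [a, c, b] E F) : (∀ u v, T u v → E u v) ∧ ∀ v, ∃ x, E v x := by
  have hb := hS.nt.bd
  simp only [List.cons_append, List.nil_append, Tri, and_true] at hb
  obtain ⟨f1, f2, f3⟩ := hb
  have e1 := fan_adj f1
  have e2 := fan_adj f2
  have e3 := fan_adj f3
  have hall : ∀ v, ∃ x, E v x := by
    intro z
    by_contra hz
    push Not at hz
    have za : z ≠ a := fun h => hz b (h ▸ e1.1)
    have zb : z ≠ b := fun h => hz c (h ▸ e3.1)
    have zc : z ≠ c := fun h => hz a (h ▸ e2.1)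
    have h1 := hO.xa z za
    have h2 := hO.xb z zb
    rcases lt_or_gt_of_ne (hT.gp.x z c zc) with h | h
    · have := hS.i1' a c ⟨[], [b], rfl⟩ z hz h1 h
      exact absurd this (not_lt.2 (hO.oac z za zc).le)
    · have := hS.i1' c b ⟨[a], [], rfl⟩ z hz h h2
      exact absurd this (not_lt.2 (hO.ocb z zc zb).le)
  refine ⟨fun u v huv => ?_, hall⟩
  by_cases hu : u ∈ ([a, c, b] : List V)
  · by_cases hv : v ∈ ([a, c, b] : List V)
    · have hne : u ≠ v := fun h => hT.irr u (by rw [h] at huv ⊢; exact huv)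
      simp only [List.mem_cons, List.not_mem_nil, or_false] at hu hv
      rcases hu with rfl | rfl | rfl <;> rcases hv with rfl | rfl | rfl
      · exact absurd rfl hne
      · exact e1.2
      · exact e1.1
      · exact e2.1
      · exact absurd rfl hne
      · exact e2.2
      · exact e3.2
      · exact e3.1
      · exact absurd rfl hne
    · obtain ⟨x, hx⟩ := hall v
      exact hS.nt.sym _ _ (hS.i4 v x u hv hx (hT.sym _ _ huv))
  · obtain ⟨x, hx⟩ := hall u
    exact hS.i4 u x v hu hx huv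

theorem swe (h0 : Sw0Stmt) (hA : SwaStmt) (hB : SwbStmt) (hadv : AdvStmt) : SweStmt := by
  intro V _ f T a b c hT hO
  classical
  suffices H : ∀ (n : ℕ) (C : List V) (E : V → V → Prop) (F : V → V → V → Prop),
      Sw f T a b C E F →
      (Finset.univ.filter fun x : V × V => T x.1 x.2 ∧ ¬ E x.1 x.2).card = n →
      ∃ E F, Sw f T a b [a, c, b] E F by
    obtain ⟨E, F, hS⟩ := H _ _ _ _ (h0 hT hO) rfl
    exact ⟨E, F, hS.nt, final hT hO hS⟩
  intro n
  induction n using Nat.strong_induction_on with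
  | _ n ih =>
  intro C E F hS hn
  -- a larger state
  have key : ∀ (C' : List V) (E' : V → V → Prop) (F' : V → V → V → Prop),
      Sw f T a b C' E' F' → (∀ u v, E u v → E' u v) → ∀ x y, ¬ E x y → E' x y →
      ∃ E F, Sw f T a b [a, c, b] E F := by
    intro C' E' F' hS' hle x y hxy hxy'
    refine ih _ ?_ C' E' F' hS' rfl
    rw [← hn]
    refine Finset.card_lt_card ⟨?_, ?_⟩
    · intro z hz
      simp only [Finset.mem_filter, Finset.mem_univ, true_and] at hz ⊢
      exact ⟨hz.1, fun h => hz.2 (hle _ _ h)⟩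
    · intro h
      have h1 : (x, y) ∈ Finset.univ.filter fun x : V × V => T x.1 x.2 ∧ ¬ E x.1 x.2 := by
        simp only [Finset.mem_filter, Finset.mem_univ, true_and]
        exact ⟨hS'.sub x y hxy', hxy⟩
      have h2 := h h1
      simp only [Finset.mem_filter, Finset.mem_univ, true_and] at h2
      exact h2.2 hxy'
  rcases hadv hT hO hS with h | ⟨P, p, q, Q, r, hC, hF, h1, h2⟩ | ⟨P, p, v, q, Q, hC, hF⟩
  · subst h; exact ⟨E, F, hS⟩
  · subst hC
    obtain ⟨hr, hS'⟩ := hA hT hS hF h1 h2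
    refine key _ _ _ hS' (fun u v h => Or.inl (Or.inl h)) r q (hr q) ?_
    right; right
    exact ⟨rfl, rfl⟩
  · subst hC
    obtain ⟨hr, hS'⟩ := hB hT hS hF
    refine key _ _ _ hS' (fun u v h => Or.inl h) p q hr ?_
    right; left
    exact ⟨rfl, rfl⟩

end Pool.Agent.SGE.H75
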